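import Mathlib
import Pool.Agent.H4.TRDefs
import Pool.Agent.H4.RK4

set_option autoImplicit false

namespace Pool.Agent.Results.MP_49fec2_al.NotResidual

open Pool.Agent.H4.TR

theorem result : ∃ L : Set (FreeGroup ℕ),
    (∀ w : FreeGroup ℕ, Satisfies {w} (RelFree L 2) →
      ∀ (K : Type) [Group K], Satisfies L K → Satisfies {w} K) ∧
    ∃ g : RelFree L 3, g ≠ 1 ∧ ∀ (N : Subgroup (RelFree L 3)) [N.Normal],
      (∃ S : Finset (RelFree L 3 ⧸ N), S.card ≤ 2 ∧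
        Subgroup.closure (S : Set (RelFree L 3 ⧸ N)) = ⊤) → g ∈ N :=
  ⟨Pool.Agent.H4.RK.LG, Pool.Agent.H4.RK.gen2, Pool.Agent.H4.RK.main⟩

end Pool.Agent.Results.MP_49fec2_al.NotResidual
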